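import Pool.Agent.helper45.FG.SpecZ

/-!
# Project fg, part Z: recentering of the time (row fz:REC, helper41)
-/

set_option autoImplicit false

open Complex Metric Set Filter Topology MeasureTheory
open EGH (Al Rh)
open FG FGE

noncomputable section

namespace FGZ

theorem REC_ball (y a z : ℂ) (ha : 0 < ‖a‖) (R : ℝ) (hz : ‖(z - y) / a‖ < R) : z ∈ ball y (R * ‖a‖) := by
  rw [mem_ball, dist_eq_norm]
  rw [norm_div, div_lt_iff₀ ha] at hz
  exact hz

theorem REC_down (T : ℂ → ℂ) (N : ℕ) (kap A : ℝ) (D : ℕ → Set ℂ) (hP : PD T N kap A D) : D 6 ⊆ D 3 ∧ D 6 ⊆ D 2 ∧ D 6 ⊆ D 0 ∧ D 2 ⊆ D 0 := by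
  have h0 := hP.mo 0 (by norm_num)
  have h1 := hP.mo 1 (by norm_num)
  have h2 := hP.mo 2 (by norm_num)
  have h3 := hP.mo 3 (by norm_num)
  have h4 := hP.mo 4 (by norm_num)
  have h5 := hP.mo 5 (by norm_num)
  have h63 : D 6 ⊆ D 3 := h5.trans (h4.trans h3)
  have h62 : D 6 ⊆ D 2 := h63.trans h2
  have h20 : D 2 ⊆ D 0 := h1.trans h0
  exact ⟨h63, h62, h62.trans h20, h20⟩

theorem REC_sg (T : ℂ → ℂ) (N : ℕ) (D : ℕ → Set ℂ) (y a : ℂ) (h e : ℝ) (hQ : Plc T N D y a h e) (s : ℝ) (hs : s ∈ Icc (0 : ℝ) h) : sg y a s ∈ ball y (2 * h * ‖a‖) := by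
  have ha : 0 < ‖a‖ := norm_pos_iff.2 hQ.a0
  have hh := hQ.h1
  rw [mem_ball, dist_eq_norm]
  unfold sg
  rw [add_sub_cancel_left, norm_mul, norm_mul, Complex.norm_I, one_mul, Complex.norm_real, Real.norm_of_nonneg hs.1, mul_comm]
  exact mul_lt_mul_of_pos_right (by linarith [hs.2]) ha

/-- the coordinates of a row point. -/
theorem REC_bx (T : ℂ → ℂ) (N : ℕ) (D : ℕ → Set ℂ) (y a : ℂ) (h e : ℝ) (hQ : Plc T N D y a h e) (x s : ℝ) (hx : x ∈ Icc (0 : ℝ) 1) (hs : s ∈ Icc (0 : ℝ) h) :
    ‖(bx T N y a ⟨x, s⟩ - y) / a - (⟨x, s⟩ : ℂ)‖ ≤ e := by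
  have ha := hQ.a0
  have ha0 : 0 < ‖a‖ := norm_pos_iff.2 ha
  have h1 := hQ.na _ (REC_sg T N D y a h e hQ s hs)
  have h2 : (bx T N y a ⟨x, s⟩ - y) / a - (⟨x, s⟩ : ℂ) = x * ((Vf T N (sg y a s) - a) / a) := by
    have h3 : (⟨x, s⟩ : ℂ) = x + s * I := by
      apply Complex.ext <;> simp
    have h4 : bx T N y a ⟨x, s⟩ = y + I * a * s + x * Vf T N (sg y a s) := rfl
    rw [h4, h3]
    field_simp
    ring
  have h5 : ‖(Vf T N (sg y a s) - a) / a‖ ≤ e := by
    rw [norm_div, div_le_iff₀ ha0]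
    exact h1
  rw [h2, norm_mul, Complex.norm_real, Real.norm_of_nonneg hx.1]
  calc x * ‖(Vf T N (sg y a s) - a) / a‖ ≤ 1 * ‖(Vf T N (sg y a s) - a) / a‖ := mul_le_mul_of_nonneg_right hx.2 (norm_nonneg _)
    _ ≤ e := by rw [one_mul]; exact h5

/-- REC. -/
theorem REC (hS : STR_stmt) (hB : BAK_stmt) (hC : CAN_stmt) : REC_stmt := by
  intro T N kap A D y a h e hP hQ he0 he1 hh c L δ t d ζ hL1 hL2 hc1 hc2 hδ0 hδ1 hAR hN hζ hζ2 ht hd
  have ha := hQ.a0
  have ha0 : 0 < ‖a‖ := norm_pos_iff.2 ha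
  have hN1 : (1 : ℝ) ≤ N := by exact_mod_cast hP.N1
  have he2 : e ≤ 1 / 1000000 := by nlinarith
  obtain ⟨h63, h62, h60, h20⟩ := REC_down T N kap A D hP
  -- the coordinates of the slab
  have hSl : ∀ w ∈ Sl T N y a 0 h, w ∈ ball y (2 * h * ‖a‖) ∧ -e ≤ ((w - y) / a).re := by
    rintro w ⟨x, hx, s, hs, rfl⟩
    have e1 := REC_bx T N D y a h e hQ x s hx hs
    have e2 := (Complex.abs_re_le_norm _).trans e1
    rw [Complex.sub_re, abs_le] at e2
    have e3 : (⟨x, s⟩ : ℂ).re = x := rfl
    rw [e3] at e2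
    have e4 : ‖(⟨x, s⟩ : ℂ)‖ ≤ 1 + h := by
      refine (Complex.norm_le_abs_re_add_abs_im _).trans ?_
      show |x| + |s| ≤ 1 + h
      rw [abs_of_nonneg hx.1, abs_of_nonneg hs.1]
      linarith [hx.2, hs.2]
    refine ⟨REC_ball y a _ ha0 _ ?_, by linarith [hx.1]⟩
    have e5 : (bx T N y a ⟨x, s⟩ - y) / a = ((bx T N y a ⟨x, s⟩ - y) / a - (⟨x, s⟩ : ℂ)) + (⟨x, s⟩ : ℂ) := by ring
    rw [e5]
    refine (norm_add_le _ _).trans_lt ?_
    linarith
  -- the displacement
  have hd2 : |d.re| ≤ h / 20 + 2 ∧ -(h / 20) - 1 ≤ c + d.im ∧ c + d.im ≤ h + h / 20 + 1 := by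
    obtain ⟨x, hx, s, hs, rfl⟩ := hζ
    have e1 := REC_bx T N D y a h e hQ x s hx hs
    have e2 : ‖I * c + d - (bx T N y a ⟨x, s⟩ - y) / a‖ ≤ h / 20 := by
      have e3 : I * c + d - (bx T N y a ⟨x, s⟩ - y) / a = (T^[t] (sg y a c) - bx T N y a ⟨x, s⟩) / a := by
        rw [hd]
        have e4 : T^[t] (sg y a c) - sg y a c = T^[t] (sg y a c) - (y + I * a * c) := rfl
        rw [e4]
        field_simp
        ring
      rw [e3, norm_div, div_le_iff₀ ha0]
      exact hζ2
    have r1 := (Complex.abs_re_le_norm _).trans e1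
    have r2 := (Complex.abs_re_le_norm _).trans e2
    have i1 := (Complex.abs_im_le_norm _).trans e1
    have i2 := (Complex.abs_im_le_norm _).trans e2
    rw [abs_le] at r1 r2 i1 i2
    have q1 : (⟨x, s⟩ : ℂ).re = x := rfl
    have q2 : (⟨x, s⟩ : ℂ).im = s := rfl
    have q3 : (I * (c : ℂ)).re = 0 := by simp
    have q4 : (I * (c : ℂ)).im = c := by simp
    rw [Complex.sub_re, q1] at r1
    rw [Complex.sub_im, q2] at i1
    rw [Complex.sub_re, Complex.add_re, q3] at r2
    rw [Complex.sub_im, Complex.add_im, q4] at i2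
    refine ⟨?_, ?_, ?_⟩
    · rw [abs_le]
      constructor <;> linarith [hx.1, hx.2]
    · linarith [hs.1]
    · linarith [hs.2]
  obtain ⟨hdr, hdi1, hdi2⟩ := hd2
  -- the image of the box
  have hw : ∀ z ∈ Bo y a (c - (L + 1)) (c + (L + 1)) (L + 1), ‖(T^[t] z - y) / a - ((z - y) / a + d)‖ ≤ δ := by
    intro z hz
    have e1 := hN.nt z hz
    have e2 : (T^[t] z - y) / a - ((z - y) / a + d) = (T^[t] z - z - d * a) / a := by
      field_simp
      ring
    rw [e2, norm_div, div_le_iff₀ ha0]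
    exact e1
  have hwn : ∀ z ∈ Bo y a (c - (L + 1)) (c + (L + 1)) (L + 1), ‖(T^[t] z - y) / a‖ ≤ 5 / 4 * h := by
    intro z hz
    have e1 := hw z hz
    have e2 := (Complex.abs_re_le_norm _).trans e1
    have e3 := (Complex.abs_im_le_norm _).trans e1
    rw [Complex.sub_re, Complex.add_re, abs_le] at e2
    rw [Complex.sub_im, Complex.add_im, abs_le] at e3
    obtain ⟨z1, z2⟩ := hz
    rw [abs_le] at z1 hdr
    have z3 := z2.1
    have z4 := z2.2
    refine (Complex.norm_le_abs_re_add_abs_im _).trans ?_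
    have r : |((T^[t] z - y) / a).re| ≤ h / 10 + 4 := by
      rw [abs_le]
      constructor <;> linarith
    have i : |((T^[t] z - y) / a).im| ≤ h + h / 10 + 3 := by
      rw [abs_le]
      constructor <;> linarith
    linarith
  have hsub : Bo y a (c - L) (c + L) L ⊆ Bo y a (c - (L + 1)) (c + (L + 1)) (L + 1) := by
    rintro z ⟨z1, z2⟩
    exact ⟨z1.trans (by linarith), by linarith [z2.1], by linarith [z2.2]⟩
  have hrow : ∀ s ∈ Icc (c - L) (c + L), ∀ x ∈ Icc (0 : ℝ) 1, bx T N y a ⟨x, s⟩ ∈ Bo y a (c - (L + 1)) (c + (L + 1)) (L + 1) ∧ ((bx T N y a ⟨x, s⟩ - y) / a).re ≤ 1 + e := by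
    intro s hs x hx
    have hs' : s ∈ Icc (0 : ℝ) h := ⟨by linarith [hs.1], by linarith [hs.2]⟩
    have e1 := REC_bx T N D y a h e hQ x s hx hs'
    have r1 := (Complex.abs_re_le_norm _).trans e1
    have i1 := (Complex.abs_im_le_norm _).trans e1
    rw [abs_le] at r1 i1
    have q1 : (⟨x, s⟩ : ℂ).re = x := rfl
    have q2 : (⟨x, s⟩ : ℂ).im = s := rfl
    rw [Complex.sub_re, q1] at r1
    rw [Complex.sub_im, q2] at i1
    refine ⟨⟨?_, ?_, ?_⟩, ?_⟩
    · rw [abs_le]
      constructor <;> linarith [hx.1, hx.2]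
    · linarith [hs.1]
    · linarith [hs.2]
    · linarith [hx.2]
  -- the integer
  obtain ⟨kz, hk1, hk2⟩ : ∃ kz : ℤ, -(3 / 2) ≤ d.re + kz ∧ d.re + kz < -(1 / 2) := by
    refine ⟨⌈-(3 / 2) - d.re⌉, ?_, ?_⟩
    · have := Int.le_ceil (-(3 / 2) - d.re)
      linarith
    · have := Int.ceil_lt_add_one (-(3 / 2) - d.re)
      linarith
  rw [abs_le] at hdr
  rcases le_or_gt 0 kz with hz0 | hz0
  · obtain ⟨k, rfl⟩ := Int.eq_ofNat_of_zero_le hz0
    have hkc : (((k : ℕ) : ℤ) : ℝ) = (k : ℝ) := by push_cast; rfl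
    rw [hkc] at hk1 hk2
    have hkh : (k : ℝ) ≤ h / 20 + 4 := by linarith
    have hke : (k : ℝ) * e ≤ h * e := mul_le_mul_of_nonneg_right (by linarith) he0
    have hstr : ∀ z ∈ Bo y a (c - (L + 1)) (c + (L + 1)) (L + 1), (∀ j ≤ k, T^[j * N] (T^[t] z) ∈ ball y (2 * h * ‖a‖) ∧ ‖T^[j * N] (T^[t] z) - T^[t] z - j * a‖ ≤ j * e * ‖a‖) ∧
        (∀ i ≤ k * N, T^[i] (T^[t] z) ∈ D 6) ∧ ∀ j ≤ k, ∀ m : ℕ, 0 < m → m < N → T^[j * N + m] (T^[t] z) ∉ ball y (2 * h * ‖a‖) := by
      intro z hz
      have e1 := hwn z hz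
      apply hS T N kap A D y a h e hP hQ he0 he1 k (T^[t] z)
      · exact REC_ball y a _ ha0 _ (by linarith)
      · apply REC_ball y a _ ha0
        have e2 : (T^[t] z + k * a - y) / a = (T^[t] z - y) / a + k := by
          field_simp
          ring
        rw [e2]
        refine (norm_add_le _ _).trans_lt ?_
        rw [Complex.norm_natCast]
        linarith
    refine ⟨t + k * N, d + k, ?_, ?_, ⟨?_, ?_⟩, ?_, ?_, ?_⟩
    · have e1 : ((N : ℕ) : ℝ) < t := by nlinarith
      have e2 : N < t := by exact_mod_cast e1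
      omega
    · intro s hs
      constructor
      · intro i hi x hx
        rcases Nat.lt_or_ge i t with h1 | h1
        · exact (hAR s hs).1 i h1 x hx
        · obtain ⟨i', rfl⟩ := Nat.exists_eq_add_of_le h1
          have h2 := (hstr _ (hrow s hs x hx).1).2.1 i' (by omega)
          rw [Nat.add_comm, Function.iterate_add_apply]
          exact h63 h2
      · intro j hj hr
        rcases Nat.lt_or_ge j t with h1 | h1
        · exact (hAR s hs).2 j h1 hr
        · obtain ⟨i', rfl⟩ := Nat.exists_eq_add_of_le h1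
          obtain ⟨hr1, x, hx, hr2⟩ := hr
          obtain ⟨hb1, hb2⟩ := hrow s hs x hx
          obtain ⟨s1, s2, s3⟩ := hstr _ hb1
          rw [Nat.add_comm, Function.iterate_add_apply] at hr2
          obtain ⟨m1, m2⟩ := hSl _ hr2
          have hNpos : 0 < N := hP.N1
          have hdm := Nat.div_add_mod i' N
          have hml := Nat.mod_lt i' hNpos
          have hlk : i' / N < k := by
            rw [Nat.div_lt_iff_lt_mul hNpos]
            omega
          rcases Nat.eq_zero_or_pos (i' % N) with h2 | h2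
          · have h3 : i' = (i' / N) * N := by
              rw [h2, add_zero, Nat.mul_comm] at hdm
              exact hdm.symm
            rw [h3] at m2
            have h4 := (s1 (i' / N) hlk.le).2
            set l := i' / N with hl
            have hlr : (l : ℝ) ≤ k - 1 := by
              have : l + 1 ≤ k := hlk
              have : ((l + 1 : ℕ) : ℝ) ≤ (k : ℝ) := by exact_mod_cast this
              push_cast at this
              linarith
            have h5 : ‖(T^[l * N] (T^[t] (bx T N y a ⟨x, s⟩)) - y) / a - ((T^[t] (bx T N y a ⟨x, s⟩) - y) / a + l)‖ ≤ l * e := by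
              have e2 : (T^[l * N] (T^[t] (bx T N y a ⟨x, s⟩)) - y) / a - ((T^[t] (bx T N y a ⟨x, s⟩) - y) / a + l) =
                  (T^[l * N] (T^[t] (bx T N y a ⟨x, s⟩)) - T^[t] (bx T N y a ⟨x, s⟩) - l * a) / a := by
                field_simp
                ring
              rw [e2, norm_div, div_le_iff₀ ha0]
              exact h4
            have h6 := (Complex.abs_re_le_norm _).trans h5
            rw [Complex.sub_re, Complex.add_re, Complex.natCast_re, abs_le] at h6
            have h7 := (Complex.abs_re_le_norm _).trans (hw _ hb1)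
            rw [Complex.sub_re, Complex.add_re, abs_le] at h7
            have h8 : (l : ℝ) * e ≤ h * e := mul_le_mul_of_nonneg_right (by linarith) he0
            linarith [h6.2, h7.2]
          · have h3 : i' = (i' / N) * N + i' % N := by
              rw [Nat.mul_comm]
              exact hdm.symm
            rw [h3] at m1
            exact s3 (i' / N) hlk.le (i' % N) h2 hml m1
    · intro z hz i hi
      rcases Nat.lt_or_ge t i with h1 | h1
      · obtain ⟨i', rfl⟩ := Nat.exists_eq_add_of_le h1.le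
        have h2 := (hstr _ (hsub hz)).2.1 i' (by omega)
        rw [Nat.add_comm, Function.iterate_add_apply]
        exact h62 h2
      · exact hN.al z (hsub hz) i h1
    · intro z hz
      have h2 := ((hstr _ (hsub hz)).1 k le_rfl).2
      have h3 := hN.nt z (hsub hz)
      rw [Nat.add_comm t, Function.iterate_add_apply]
      have h4 : T^[k * N] (T^[t] z) - z - (d + k) * a = (T^[k * N] (T^[t] z) - T^[t] z - k * a) + (T^[t] z - z - d * a) := by ring
      rw [h4]
      refine (norm_add_le _ _).trans ?_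
      nlinarith
    · rw [Complex.add_re, Complex.natCast_re, abs_le]
      constructor <;> linarith
    · rw [Complex.add_im, Complex.natCast_im, add_zero]
      linarith
    · rw [Complex.add_im, Complex.natCast_im, add_zero]
      linarith
  · obtain ⟨k, hk⟩ := Int.eq_ofNat_of_zero_le (by omega : 0 ≤ -kz)
    have hkc : (kz : ℝ) = -(k : ℝ) := by
      have : kz = -(k : ℤ) := by omega
      rw [this]
      push_cast
      rfl
    rw [hkc] at hk1 hk2
    have hkh : (k : ℝ) ≤ h / 20 + 4 := by linarith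
    have hke : (k : ℝ) * e ≤ h * e := mul_le_mul_of_nonneg_right (by linarith) he0
    have hkt : (k : ℝ) * N + N < t := by nlinarith
    have hkt2 : k * N + N < t := by exact_mod_cast hkt
    obtain ⟨t', ht'⟩ : ∃ t', t = t' + k * N := ⟨t - k * N, by omega⟩
    refine ⟨t', d - k, by omega, ?_, ⟨?_, ?_⟩, ?_, ?_, ?_⟩
    · intro s hs
      exact ⟨fun i hi x hx => (hAR s hs).1 i (by omega) x hx, fun j hj => (hAR s hs).2 j (by omega)⟩
    · intro z hz i hi
      exact hN.al z (hsub hz) i (by omega)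
    · intro z hz
      have e1 := hwn z (hsub hz)
      obtain ⟨w0, hw0, hw1, hw2, hw3, -⟩ := hB T N kap A D y a h e hP hQ he0 he1 k (T^[t] z)
        (REC_ball y a _ ha0 _ (by linarith)) (by
          apply REC_ball y a _ ha0
          have e2 : (T^[t] z - k * a - y) / a = (T^[t] z - y) / a - k := by
            field_simp
            ring
          rw [e2]
          refine (norm_sub_le _ _).trans_lt ?_
          rw [Complex.norm_natCast]
          linarith)
      have h1 : T^[k * N] (T^[t'] z) = T^[t] z := by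
        rw [← Function.iterate_add_apply, ht', Nat.add_comm]
      have h2 : T^[t'] z = w0 := by
        refine (hC T N kap A D hP (k * N)).1 _ _ ?_ ?_ (h1.trans hw1.symm)
        · intro j hj
          rw [← Function.iterate_add_apply]
          exact h20 (hN.al z (hsub hz) _ (by omega))
        · intro j hj
          exact h60 (hw3 j hj.le)
      have h3 := hN.nt z (hsub hz)
      rw [h2]
      have h4 : w0 - z - (d - k) * a = (w0 - (T^[t] z - k * a)) + (T^[t] z - z - d * a) := by ring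
      rw [h4]
      refine (norm_add_le _ _).trans ?_
      nlinarith
    · rw [Complex.sub_re, Complex.natCast_re, abs_le]
      constructor <;> linarith
    · rw [Complex.sub_im, Complex.natCast_im, sub_zero]
      linarith
    · rw [Complex.sub_im, Complex.natCast_im, sub_zero]
      linarith

end FGZ
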